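import Pool.Agent.P8H50.NK.Stm

/-!
Project NK (helper50), packages LUP and ORD
-/

set_option autoImplicit false

namespace Pool.Agent.P8H88.NK

open MeasureTheory Set Filter Topology Metric Real ValueDistribution MeromorphicOn
open Pool.Agent.H159R3.NV (L mero_of_diff ci_log ne_cod)
open Pool.Agent.Helper160.Nev (circleAverage_mono_codiscrete)
open Pool.Agent.N131.SR (NZ)
open Pool.Agent.P8H10.GC (nz_of_diff)
open Pool.Agent.P8H50.NK

theorem lf_diff {n : ℕ} {f : Fin n → ℂ → ℂ} (hf : ∀ i, Differentiable ℂ (f i)) (b : Fin n → ℂ) :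
    Differentiable ℂ (lf b f) := by
  show Differentiable ℂ (fun z => ∑ i, b i * f i z)
  exact Differentiable.fun_sum fun i _ => (hf i).const_mul (b i)

theorem nm_pos {n : ℕ} {f : Fin n → ℂ → ℂ} (hf : Crv f) (z : ℂ) : 0 < nm f z := by
  unfold nm
  rw [norm_pos_iff]
  intro h
  obtain ⟨i, hi⟩ := hf.nz z
  exact hi (congrFun h i)

theorem nm_ci {n : ℕ} {f : Fin n → ℂ → ℂ} (hf : Crv f) (r : ℝ) :
    CircleIntegrable (fun z => Real.log (nm f z)) 0 r := by
  apply ContinuousOn.circleIntegrable'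
  apply ContinuousOn.log
  · have h1 : Continuous fun z : ℂ => fun i => f i z := continuous_pi fun i => (hf.diff i).continuous
    exact h1.norm.continuousOn
  · intro z _
    exact (nm_pos hf z).ne'

theorem lf_le {n : ℕ} (f : Fin n → ℂ → ℂ) (b : Fin n → ℂ) (z : ℂ) :
    ‖lf b f z‖ ≤ (1 + ∑ i, ‖b i‖) * nm f z := by
  have h1 : ‖lf b f z‖ ≤ ∑ i, ‖b i‖ * nm f z := by
    unfold lf
    refine (norm_sum_le _ _).trans (Finset.sum_le_sum fun i _ => ?_)
    rw [norm_mul]
    exact mul_le_mul_of_nonneg_left (norm_le_pi_norm (fun i => f i z) i) (norm_nonneg _)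
  rw [← Finset.sum_mul] at h1
  have h2 : 0 ≤ nm f z := norm_nonneg _
  nlinarith

/-- **LUP** -/
theorem lup : S_LUP := by
  intro n f hf b hb
  have hs : 0 ≤ ∑ i, ‖b i‖ := Finset.sum_nonneg fun _ _ => norm_nonneg _
  obtain ⟨C, hC⟩ : ∃ C : ℝ, C = 1 + ∑ i, ‖b i‖ := ⟨_, rfl⟩
  have hC1 : 1 ≤ C := by rw [hC]; linarith
  refine ⟨Real.log C, Real.log_nonneg hC1, fun r hr => ?_⟩
  have hr0 : r ≠ 0 := by linarith
  have i3 := nm_ci hf r
  have i4 : CircleIntegrable (fun _ : ℂ => Real.log C) 0 r := circleIntegrable_const _ _ _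
  have e2 : tau f r + Real.log C = circleAverage (fun z => Real.log (nm f z) + Real.log C) 0 r := by
    rw [circleAverage_fun_add i3 i4, circleAverage_const]
    rfl
  rw [e2]
  have hd := lf_diff hf.diff b
  refine circleAverage_mono_codiscrete hr0 (ci_log (mero_of_diff hd) r) (i3.add i4) ?_
  obtain ⟨w, hw⟩ := hb
  filter_upwards [ne_cod hd hw r] with z hz
  have hn := nm_pos hf z
  have hCp : 0 < C := by linarith
  rw [← Real.log_mul hn.ne' hCp.ne', mul_comm (nm f z) C]
  have h3 := lf_le f b z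
  rw [← hC] at h3
  exact Real.log_le_log (norm_pos_iff.2 hz) h3

theorem order_ne_top {f : ℂ → ℂ} (hf : Differentiable ℂ f) (h0 : ∃ z, f z ≠ 0) (z : ℂ) :
    analyticOrderAt f z ≠ ⊤ := by
  intro h
  apply nz_of_diff hf h0 z
  rw [(hf.analyticAt z).meromorphicOrderAt_eq, h]
  rfl

theorem nat_order_pos {f : ℂ → ℂ} (hf : Differentiable ℂ f) (h0 : ∃ z, f z ≠ 0) {z : ℂ}
    (hz : f z = 0) : 1 ≤ analyticOrderNatAt f z := by
  have h1 := order_ne_top hf h0 z
  have h2 : analyticOrderAt f z ≠ 0 := by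
    intro h
    exact ((hf.analyticAt z).analyticOrderAt_eq_zero.1 h) hz
  rw [Nat.one_le_iff_ne_zero]
  intro h
  apply h2
  rw [← Nat.cast_analyticOrderNatAt h1, h]
  rfl

theorem nat_order_zero {f : ℂ → ℂ} (hf : Differentiable ℂ f) {z : ℂ} (hz : f z ≠ 0) :
    analyticOrderNatAt f z = 0 := by
  have h1 : analyticOrderAt f z = 0 := (hf.analyticAt z).analyticOrderAt_eq_zero.2 hz
  rw [analyticOrderNatAt, h1]
  rfl

/-- **ORD** -/
theorem ord : S_ORW → S_ORD := by
  intro hW n q M ω hω f hf hne z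
  classical
  have hd : ∀ j, Differentiable ℂ (lf (M j) f) := fun j => lf_diff hf.diff (M j)
  refine ⟨fun h => Finset.sum_eq_zero fun j _ => ?_, ?_⟩
  · rw [nat_order_zero (hd j) (h j)]
    simp
  obtain ⟨S, hS⟩ : ∃ S : Finset (Fin q), S = Finset.univ.filter fun j => lf (M j) f z = 0 :=
    ⟨_, rfl⟩
  have hmem : ∀ j, j ∈ S ↔ lf (M j) f z = 0 := fun j => by
    rw [hS, Finset.mem_filter]
    simp
  have hrk : rk M S < n := by
    by_contra hcon
    push Not at hcon
    have h1 : Module.finrank ℂ (Submodule.span ℂ (M '' (S : Set (Fin q)))) =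
        Module.finrank ℂ (Fin n → ℂ) := by
      apply le_antisymm (Submodule.finrank_le _)
      rw [Module.finrank_fin_fun]
      exact hcon
    have h2 := Submodule.eq_top_of_finrank_eq h1
    -- the functional
    let φ : (Fin n → ℂ) →ₗ[ℂ] ℂ :=
      { toFun := fun v => ∑ i, v i * f i z
        map_add' := fun v w => by
          simp only [Pi.add_apply, add_mul, Finset.sum_add_distrib]
        map_smul' := fun c v => by
          simp only [Pi.smul_apply, smul_eq_mul, mul_assoc, Finset.mul_sum, RingHom.id_apply] }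
    have h3 : Submodule.span ℂ (M '' (S : Set (Fin q))) ≤ LinearMap.ker φ := by
      rw [Submodule.span_le]
      rintro _ ⟨j, hj, rfl⟩
      exact (hmem j).1 hj
    obtain ⟨i, hi⟩ := hf.nz z
    apply hi
    have h4 : (Pi.single i 1 : Fin n → ℂ) ∈ LinearMap.ker φ := by
      apply h3
      rw [h2]
      trivial
    have h5 : ∑ k, (Pi.single i 1 : Fin n → ℂ) k * f k z = 0 := h4
    rw [Finset.sum_eq_single i] at h5
    · simpa using h5
    · intro k _ hk
      rw [Pi.single_eq_of_ne hk, zero_mul]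
    · intro hk
      exact absurd (Finset.mem_univ i) hk
  obtain ⟨b, hbS, hbi, hb⟩ := Pool.Agent.N750.greedy (F := ℂ) M ω S.card S rfl
    (fun j => (analyticOrderNatAt (lf (M j) f) z : ℝ)) (fun j => Nat.cast_nonneg _)
    (fun j hj => by
      have := nat_order_pos (hd j) (hne j) ((hmem j).1 hj)
      exact_mod_cast this)
    (fun A' hA' => hω.le A' (lt_of_le_of_lt (Pool.Agent.N750.rk_mono M A' S hA') hrk))
  have h1 : ∑ j, ω j * (analyticOrderNatAt (lf (M j) f) z : ℝ) =
      ∑ j ∈ S, ω j * (analyticOrderNatAt (lf (M j) f) z : ℝ) := by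
    symm
    apply Finset.sum_subset (Finset.subset_univ _)
    intro j _ hj
    rw [nat_order_zero (hd j) fun h => hj ((hmem j).2 h)]
    simp
  rw [h1]
  refine hb.trans ?_
  have h2 := hW n q M f hf b hbi z
  have h3 : (∑ j ∈ b, (analyticOrderNatAt (lf (M j) f) z : ℝ)) ≤
      ((analyticOrderNatAt (wr f) z + n * (n - 1) / 2 : ℕ) : ℝ) := by
    exact_mod_cast h2
  refine h3.trans ?_
  rw [Nat.cast_add]
  have h4 : ((n * (n - 1) / 2 : ℕ) : ℝ) ≤ ((n * (n - 1) : ℕ) : ℝ) / 2 := Nat.cast_div_le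
  have h5 : ((n * (n - 1) : ℕ) : ℝ) = (n : ℝ) * (n - 1) := by
    rcases Nat.eq_zero_or_pos n with h | h
    · rw [h]
      simp
    · rw [Nat.cast_mul, Nat.cast_sub h, Nat.cast_one]
  rw [h5] at h4
  linarith

end Pool.Agent.P8H88.NK
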