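import Pool.Agent.P8H88.NK.Lup

/-!
Project NK (helper50), package ORW: the order of the Wronskian
-/

set_option autoImplicit false

namespace Pool.Agent.P8H88.NK

open Filter Topology
open Pool.Agent.P8H50.NK

theorem deriv_order {h : ℂ → ℂ} {z : ℂ} (hh : AnalyticAt ℂ h z) (N : ℕ)
    (hN : (N : ℕ∞) ≤ analyticOrderAt h z) : ((N - 1 : ℕ) : ℕ∞) ≤ analyticOrderAt (deriv h) z := by
  rcases Nat.eq_zero_or_pos N with h0 | h0
  · rw [h0]
    simp
  · have h1 : analyticOrderAt h z ≠ 0 := by
      intro h2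
      rw [h2] at hN
      have : N = 0 := by simpa using hN
      omega
    have hz : h z = 0 := apply_eq_zero_of_analyticOrderAt_ne_zero h1
    have h2 := hh.analyticOrderAt_deriv_add_one
    simp only [hz, sub_zero] at h2
    have h3 : (N : ℕ∞) = ((N - 1 : ℕ) : ℕ∞) + 1 := by
      have : N = (N - 1) + 1 := by omega
      conv_lhs => rw [this]
      push_cast
      rfl
    have h4 : ((N - 1 : ℕ) : ℕ∞) + 1 ≤ analyticOrderAt (deriv h) z + 1 := by
      rw [← h3, h2]
      exact hN
    exact (ENat.add_le_add_iff_right ENat.one_ne_top).1 h4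

theorem iter_diff {g : ℂ → ℂ} (hg : Differentiable ℂ g) (l : ℕ) :
    Differentiable ℂ (iteratedDeriv l g) := by
  induction l with
  | zero => rw [iteratedDeriv_zero]; exact hg
  | succ l ih =>
    rw [iteratedDeriv_succ]
    intro z
    exact (ih.analyticAt z).deriv.differentiableAt

theorem iter_order {g : ℂ → ℂ} (hg : Differentiable ℂ g) (z : ℂ) (l : ℕ) (N : ℕ)
    (hN : (N : ℕ∞) ≤ analyticOrderAt g z) :
    ((N - l : ℕ) : ℕ∞) ≤ analyticOrderAt (iteratedDeriv l g) z := by
  induction l with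
  | zero => rw [iteratedDeriv_zero]; exact hN
  | succ l ih =>
    rw [iteratedDeriv_succ]
    have := deriv_order ((iter_diff hg l).analyticAt z) (N - l) ih
    rwa [Nat.sub_sub] at this

theorem prod_order {ι : Type*} (s : Finset ι) (h : ι → ℂ → ℂ) {z : ℂ}
    (hh : ∀ i, Differentiable ℂ (h i)) (N : ι → ℕ)
    (hN : ∀ i ∈ s, (N i : ℕ∞) ≤ analyticOrderAt (h i) z) :
    ((∑ i ∈ s, N i : ℕ) : ℕ∞) ≤ analyticOrderAt (fun w => ∏ i ∈ s, h i w) z := by
  classical
  induction s using Finset.induction_on with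
  | empty => simp
  | insert a s ha ih =>
    have h1 := ih fun i hi => hN i (Finset.mem_insert_of_mem hi)
    have h2 : (fun w => ∏ i ∈ insert a s, h i w) = h a * fun w => ∏ i ∈ s, h i w := by
      funext w
      rw [Finset.prod_insert ha]
      rfl
    have h3 : Differentiable ℂ (fun w => ∏ i ∈ s, h i w) :=
      Differentiable.fun_finsetProd fun i _ => hh i
    rw [h2, analyticOrderAt_mul ((hh a).analyticAt z) (h3.analyticAt z), Finset.sum_insert ha,
      Nat.cast_add]
    exact add_le_add (hN a (Finset.mem_insert_self _ _)) h1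

theorem sum_order {ι : Type*} (s : Finset ι) (h : ι → ℂ → ℂ) {z : ℂ} (N : ℕ)
    (hN : ∀ i ∈ s, (N : ℕ∞) ≤ analyticOrderAt (h i) z) :
    (N : ℕ∞) ≤ analyticOrderAt (fun w => ∑ i ∈ s, h i w) z := by
  classical
  induction s using Finset.induction_on with
  | empty =>
    have : analyticOrderAt (fun w : ℂ => ∑ i ∈ (∅ : Finset ι), h i w) z = ⊤ := by
      rw [analyticOrderAt_eq_top]
      exact Eventually.of_forall fun w => by simp
    rw [this]
    exact le_top
  | insert a s ha ih =>
    have h1 := ih fun i hi => hN i (Finset.mem_insert_of_mem hi)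
    have h2 : (fun w => ∑ i ∈ insert a s, h i w) = h a + fun w => ∑ i ∈ s, h i w := by
      funext w
      rw [Finset.sum_insert ha]
      rfl
    rw [h2]
    exact (le_min (hN a (Finset.mem_insert_self _ _)) h1).trans le_analyticOrderAt_add

theorem wr_order {n : ℕ} (g : Fin n → ℂ → ℂ) (hg : ∀ i, Differentiable ℂ (g i))
    (hg0 : ∀ i, ∃ z, g i z ≠ 0) (z : ℂ) :
    ((∑ i, analyticOrderNatAt (g i) z - n * (n - 1) / 2 : ℕ) : ℕ∞) ≤ analyticOrderAt (wr g) z := by
  classical
  have h1 : wr g = fun w => ∑ σ : Equiv.Perm (Fin n), (((Equiv.Perm.sign σ : ℤˣ) : ℤ) : ℂ) *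
      ∏ i : Fin n, iteratedDeriv (i : ℕ) (g (σ i)) w := by
    funext w
    unfold wr
    rw [Matrix.det_apply']
    rfl
  rw [h1]
  refine sum_order Finset.univ _ _ fun σ _ => ?_
  have h2 : ∀ i : Fin n, ((analyticOrderNatAt (g (σ i)) z - (i : ℕ) : ℕ) : ℕ∞) ≤
      analyticOrderAt (iteratedDeriv (i : ℕ) (g (σ i))) z := by
    intro i
    apply iter_order (hg (σ i)) z
    rw [Nat.cast_analyticOrderNatAt (order_ne_top (hg (σ i)) (hg0 (σ i)) z)]
  have h3 := prod_order (z := z) Finset.univ (fun i : Fin n => iteratedDeriv (i : ℕ) (g (σ i)))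
    (fun i => iter_diff (hg (σ i)) i) _ fun i _ => h2 i
  have h4 : Differentiable ℂ (fun w => ∏ i : Fin n, iteratedDeriv (i : ℕ) (g (σ i)) w) :=
    Differentiable.fun_finsetProd fun i _ => iter_diff (hg (σ i)) i
  have h5 : (fun w => (((Equiv.Perm.sign σ : ℤˣ) : ℤ) : ℂ) *
      ∏ i : Fin n, iteratedDeriv (i : ℕ) (g (σ i)) w) =
      (fun _ => (((Equiv.Perm.sign σ : ℤˣ) : ℤ) : ℂ)) *
        fun w => ∏ i : Fin n, iteratedDeriv (i : ℕ) (g (σ i)) w := rfl
  rw [h5, analyticOrderAt_mul analyticAt_const (h4.analyticAt z)]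
  refine le_trans ?_ (h3.trans le_add_self)
  rw [Nat.cast_le]
  have h6 : ∑ i, analyticOrderNatAt (g i) z = ∑ i, analyticOrderNatAt (g (σ i)) z :=
    (Equiv.sum_comp σ fun i => analyticOrderNatAt (g i) z).symm
  have h7 : n * (n - 1) / 2 = ∑ i : Fin n, (i : ℕ) := by
    rw [Fin.sum_univ_eq_sum_range (fun i => i) n, Finset.sum_range_id]
  rw [h6, h7, tsub_le_iff_right, ← Finset.sum_add_distrib]
  exact Finset.sum_le_sum fun i _ => le_tsub_add

/-- independent vectors can be completed to an invertible matrix -/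
theorem exists_matrix {n q : ℕ} (M : Fin q → Fin n → ℂ) (b : Finset (Fin q))
    (hb : LinearIndepOn ℂ M (b : Set (Fin q))) (φ : (Fin n → ℂ) → ℕ) :
    ∃ B : Fin n → Fin n → ℂ, (Matrix.of B).det ≠ 0 ∧ ∑ l ∈ b, φ (M l) ≤ ∑ i, φ (B i) := by
  classical
  have h1 : LinearIndepOn ℂ id (M '' (b : Set (Fin q))) := hb.id_image
  let bs := Module.Basis.extend h1
  let T := h1.extend (Set.subset_univ _)
  have hfin : Finite T := Module.Finite.finite_basis bs
  have hft : Fintype T := Fintype.ofFinite T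
  have hcard : Fintype.card T = Fintype.card (Fin n) := by
    have h2 := Module.finrank_eq_card_basis bs
    rw [Module.finrank_fin_fun] at h2
    rw [Fintype.card_fin]
    exact h2.symm
  let e : T ≃ Fin n := Fintype.equivOfCardEq hcard
  refine ⟨fun i => ((e.symm i : T) : Fin n → ℂ), ?_, ?_⟩
  · have h2 : LinearIndependent ℂ (fun i => ((e.symm i : T) : Fin n → ℂ)) := by
      have h3 := (bs.reindex e).linearIndependent
      have h4 : ⇑(bs.reindex e) = fun i => ((e.symm i : T) : Fin n → ℂ) := by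
        funext i
        rw [Module.Basis.reindex_apply]
        exact Module.Basis.extend_apply_self h1 _
      rwa [h4] at h3
    have h5 : IsUnit (Matrix.of fun i => ((e.symm i : T) : Fin n → ℂ)) :=
      Matrix.linearIndependent_rows_iff_isUnit.1 h2
    exact ((Matrix.isUnit_iff_isUnit_det _).1 h5).ne_zero
  · have h2 : ∑ i, φ ((e.symm i : T) : Fin n → ℂ) = ∑ t : T, φ (t : Fin n → ℂ) :=
      Equiv.sum_comp e.symm fun t : T => φ (t : Fin n → ℂ)
    rw [h2]
    have hinj : Set.InjOn M (b : Set (Fin q)) := hb.injOn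
    have hsub : ∀ l ∈ b, M l ∈ T := fun l hl =>
      h1.subset_extend _ (Set.mem_image_of_mem M hl)
    have h3 : ∑ l ∈ b, φ (M l) = ∑ l : b, φ (M l) := (Finset.sum_coe_sort b fun l => φ (M l)).symm
    rw [h3]
    let ι : b → T := fun l => ⟨M l, hsub l l.2⟩
    have hι : Function.Injective ι := by
      intro l l' h
      have : M l = M l' := congrArg Subtype.val h
      exact Subtype.ext (hinj l.2 l'.2 this)
    calc ∑ l : b, φ (M l) = ∑ l : b, φ ((ι l : T) : Fin n → ℂ) := rfl
      _ = ∑ t ∈ Finset.univ.map ⟨ι, hι⟩, φ ((t : T) : Fin n → ℂ) := by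
          rw [Finset.sum_map]
          rfl
      _ ≤ _ := Finset.sum_le_sum_of_subset (Finset.subset_univ _)

/-- **ORW** -/
theorem orw : S_WRN → S_WRB → S_ORW := by
  intro hN hB n q M f hf b hb z
  classical
  obtain ⟨B, hdet, hle⟩ := exists_matrix M b hb fun v => analyticOrderNatAt (lf v f) z
  refine hle.trans ?_
  have hgd : ∀ i, Differentiable ℂ (lf (B i) f) := fun i => lf_diff hf.diff (B i)
  have hg0 : ∀ i, ∃ w, lf (B i) f w ≠ 0 := by
    intro i
    by_contra hcon
    push Not at hcon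
    have h1 := hf.ind (B i) hcon
    apply hdet
    apply Matrix.det_eq_zero_of_row_eq_zero i
    intro j
    exact congrFun h1 j
  obtain ⟨hWd, hW0⟩ := hN n f hf
  have h1 := wr_order (fun i => lf (B i) f) hgd hg0 z
  have h2 : wr (fun i => lf (B i) f) = (fun _ => (Matrix.of B).det) * wr f := by
    funext w
    exact hB n f hf.diff B w
  have h3 : analyticOrderAt (fun _ : ℂ => (Matrix.of B).det) z = 0 :=
    analyticAt_const.analyticOrderAt_eq_zero.2 hdet
  rw [h2, analyticOrderAt_mul analyticAt_const (hWd.analyticAt z), h3, zero_add,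
    ← Nat.cast_analyticOrderNatAt (order_ne_top hWd hW0 z), Nat.cast_le, tsub_le_iff_right] at h1
  exact h1

end Pool.Agent.P8H88.NK
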